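import Pool.Agent.H3T0.A

set_option autoImplicit false

namespace Pool.Agent.H3T0

open Finset

variable {n : ℕ}

/-- `A` (a set of arcs) is an Eulerian orientation of the graph `G`: it has exactly one of the two
arcs of every edge, and in-degree and out-degree agree at every vertex. -/
def IsEulerianOrientation (G : SimpleGraph (Fin n)) (A : Finset (Fin n × Fin n)) : Prop :=
  (∀ e ∈ A, G.Adj e.1 e.2) ∧ (∀ u v, G.Adj u v → ((u, v) ∈ A ↔ (v, u) ∉ A)) ∧
    ∀ v, (A.filter (fun e => e.1 = v)).card = (A.filter (fun e => e.2 = v)).card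

/-- `H` (a set of arcs) is a balanced oriented subgraph of `G`: its arcs come from edges of `G`,
no edge is used in both directions, and in-degree and out-degree agree at every vertex. -/
def IsBalancedIn (G : SimpleGraph (Fin n)) (H : Finset (Fin n × Fin n)) : Prop :=
  (∀ e ∈ H, G.Adj e.1 e.2) ∧ (∀ u v, (u, v) ∈ H → (v, u) ∉ H) ∧
    ∀ v, (H.filter (fun e => e.1 = v)).card = (H.filter (fun e => e.2 = v)).card

open Classical in
/-- the edges of `G` as increasing pairs -/
noncomputable def EG (G : SimpleGraph (Fin n)) : Finset (Fin n × Fin n) :=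
  univ.filter (fun e => e.1 < e.2 ∧ G.Adj e.1 e.2)

lemma mem_EG {G : SimpleGraph (Fin n)} {e : Fin n × Fin n} :
    e ∈ EG G ↔ e.1 < e.2 ∧ G.Adj e.1 e.2 := by
  classical
  simp only [EG, mem_filter, mem_univ, true_and]

/-- the arcs of the orientation given by `F ⊆ C`. -/
def arcs (C F : Finset (Fin n × Fin n)) : Finset (Fin n × Fin n) :=
  F ∪ (C \ F).image Prod.swap

lemma mem_arcs {C F : Finset (Fin n × Fin n)} {u v : Fin n} :
    (u, v) ∈ arcs C F ↔ (u, v) ∈ F ∨ ((v, u) ∈ C ∧ (v, u) ∉ F) := by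
  simp only [arcs, mem_union, mem_image, mem_sdiff]
  constructor
  · rintro (h | ⟨⟨a, b⟩, h, e⟩)
    · exact Or.inl h
    · simp only [Prod.swap_prod_mk, Prod.mk.injEq] at e
      obtain ⟨rfl, rfl⟩ := e
      exact Or.inr h
  · rintro (h | h)
    · exact Or.inl h
    · exact Or.inr ⟨(v, u), h, rfl⟩

lemma bal_arcs {C F : Finset (Fin n × Fin n)} (hC : ∀ e ∈ C, e.1 < e.2) (hF : F ⊆ C) :
    D (fun e => bv (id e)) C F = ∑ e ∈ arcs C F, bv e := by
  rw [arcs, sum_union, sum_image (fun x _ y _ h => Prod.swap_injective h), D,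
    ← sum_sdiff hF, add_comm]
  · congr 1
    · exact sum_congr rfl fun e he => by simp [he]
    · refine sum_congr rfl fun e he => ?_
      rw [if_neg (mem_sdiff.1 he).2]
      funext x
      simp [bv]
  · rw [disjoint_left]
    intro e he h
    obtain ⟨e', h1, rfl⟩ := mem_image.1 h
    have a := hC _ (hF he)
    have b := hC _ (mem_sdiff.1 h1).1
    simp only [Prod.fst_swap, Prod.snd_swap] at a
    exact absurd a b.asymm

lemma sum_bv (A : Finset (Fin n × Fin n)) :
    (∑ e ∈ A, bv e) = 0 ↔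
      ∀ v, (A.filter (fun e => e.1 = v)).card = (A.filter (fun e => e.2 = v)).card := by
  rw [funext_iff]
  refine forall_congr' fun v => ?_
  simp only [bv, Finset.sum_apply, sum_sub_distrib, sum_boole, Pi.zero_apply, sub_eq_zero]
  exact Nat.cast_inj

open Classical in
/-- the Eulerian orientations of `G` -/
noncomputable def EO (G : SimpleGraph (Fin n)) : Finset (Finset (Fin n × Fin n)) :=
  univ.filter (IsEulerianOrientation G)

lemma mem_EO {G : SimpleGraph (Fin n)} {A : Finset (Fin n × Fin n)} :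
    A ∈ EO G ↔ IsEulerianOrientation G A := by
  classical
  simp only [EO, mem_filter, mem_univ, true_and]

lemma arcs_EO {G : SimpleGraph (Fin n)} {F : Finset (Fin n × Fin n)} (hF : F ⊆ EG G)
    (h : D (fun e => bv (id e)) (EG G) F = 0) : IsEulerianOrientation G (arcs (EG G) F) := by
  have hE : ∀ e ∈ EG G, e.1 < e.2 := fun e he => (mem_EG.1 he).1
  refine ⟨?_, ?_, ?_⟩
  · rintro ⟨u, v⟩ he
    rcases mem_arcs.1 he with h | h
    · exact (mem_EG.1 (hF h)).2
    · exact ((mem_EG.1 h.1).2).symm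
  · intro u v huv
    rw [mem_arcs, mem_arcs]
    rcases lt_or_gt_of_ne huv.ne with hlt | hlt
    · have h1 : (v, u) ∉ EG G := fun h => absurd (hE _ h) hlt.asymm
      have h2 : (u, v) ∈ EG G := mem_EG.2 ⟨hlt, huv⟩
      have h3 : (v, u) ∉ F := fun h => h1 (hF h)
      tauto
    · have h1 : (u, v) ∉ EG G := fun h => absurd (hE _ h) hlt.asymm
      have h2 : (v, u) ∈ EG G := mem_EG.2 ⟨hlt, huv.symm⟩
      have h3 : (u, v) ∉ F := fun h => h1 (hF h)
      tauto
  · rw [← sum_bv, ← bal_arcs hE hF, h]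

lemma EO_arcs {G : SimpleGraph (Fin n)} {A : Finset (Fin n × Fin n)}
    (h : IsEulerianOrientation G A) : arcs (EG G) (A ∩ EG G) = A := by
  ext ⟨u, v⟩
  rw [mem_arcs]
  simp only [mem_inter]
  constructor
  · rintro (⟨h1, -⟩ | ⟨h1, h2⟩)
    · exact h1
    · have huv : G.Adj u v := ((mem_EG.1 h1).2).symm
      rw [h.2.1 u v huv]
      tauto
  · intro h1
    have huv := h.1 _ h1
    rcases lt_or_gt_of_ne huv.ne with hlt | hlt
    · exact Or.inl ⟨h1, mem_EG.2 ⟨hlt, huv⟩⟩
    · right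
      refine ⟨mem_EG.2 ⟨hlt, huv.symm⟩, fun hh => ?_⟩
      exact (h.2.1 u v huv).1 h1 hh.1

lemma card_EO (G : SimpleGraph (Fin n)) :
    (EO G).card = N (fun e => bv (id e)) (EG G) 0 := by
  classical
  have hE : ∀ e ∈ EG G, e.1 < e.2 := fun e he => (mem_EG.1 he).1
  rw [N, T, sum_boole, Nat.cast_id]
  symm
  refine card_bij' (fun F _ => arcs (EG G) F) (fun A _ => A ∩ EG G) ?_ ?_ ?_ ?_
  · intro F hF
    obtain ⟨h1, h2⟩ := mem_filter.1 hF
    exact mem_filter.2 ⟨mem_univ _, arcs_EO (mem_powerset.1 h1) h2⟩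
  · intro A hA
    have hA := (mem_filter.1 hA).2
    refine mem_filter.2 ⟨mem_powerset.2 inter_subset_right, ?_⟩
    rw [bal_arcs hE inter_subset_right, EO_arcs hA, sum_bv]
    exact hA.2.2
  · intro F hF
    have hF := mem_powerset.1 (mem_filter.1 hF).1
    ext ⟨u, v⟩
    rw [mem_inter, mem_arcs]
    constructor
    · rintro ⟨h1 | h1, h2⟩
      · exact h1
      · exact absurd (hE _ h2) (hE _ h1.1).asymm
    · exact fun h => ⟨Or.inl h, hF h⟩
  · intro A hA
    exact EO_arcs (mem_filter.1 hA).2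

lemma Ev_of_even {G : SimpleGraph (Fin n)} [DecidableRel G.Adj] (hG : ∀ v, Even (G.degree v)) :
    Ev (fun e => bv (id e)) (EG G) := by
  classical
  intro v
  have hE : ∀ e ∈ EG G, e.1 < e.2 := fun e he => (mem_EG.1 he).1
  have h1 : (∑ e ∈ EG G, bv (id e)) v = (((EG G).filter (fun e => e.1 = v)).card : ℤ) -
      ((EG G).filter (fun e => e.2 = v)).card := by
    simp only [bv, id, Finset.sum_apply, sum_sub_distrib, sum_boole]
  have h2 : G.degree v = ((EG G).filter (fun e => e.1 = v)).card +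
      ((EG G).filter (fun e => e.2 = v)).card := by
    rw [← SimpleGraph.card_neighborFinset_eq_degree,
      ← card_filter_add_card_filter_not (s := G.neighborFinset v) (fun w => v < w)]
    congr 1
    · refine card_bij' (fun w _ => (v, w)) (fun e _ => e.2) ?_ ?_ ?_ ?_
      · intro w hw
        obtain ⟨a, b⟩ := mem_filter.1 hw
        exact mem_filter.2 ⟨mem_EG.2 ⟨b, (SimpleGraph.mem_neighborFinset _ _ _).1 a⟩, rfl⟩
      · rintro ⟨x, y⟩ he
        obtain ⟨a, b⟩ := mem_filter.1 he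
        simp only at b
        subst b
        exact mem_filter.2 ⟨(SimpleGraph.mem_neighborFinset _ _ _).2 (mem_EG.1 a).2,
          (mem_EG.1 a).1⟩
      · intro w _; rfl
      · rintro ⟨x, y⟩ he
        have := (mem_filter.1 he).2
        simp only at this
        subst this
        rfl
    · refine card_bij' (fun w _ => (w, v)) (fun e _ => e.1) ?_ ?_ ?_ ?_
      · intro w hw
        obtain ⟨a, b⟩ := mem_filter.1 hw
        have a' := (SimpleGraph.mem_neighborFinset _ _ _).1 a
        exact mem_filter.2 ⟨mem_EG.2 ⟨lt_of_le_of_ne (not_lt.1 b) a'.ne', a'.symm⟩, rfl⟩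
      · rintro ⟨x, y⟩ he
        obtain ⟨a, b⟩ := mem_filter.1 he
        simp only at b
        subst b
        exact mem_filter.2 ⟨(SimpleGraph.mem_neighborFinset _ _ _).2 (mem_EG.1 a).2.symm,
          (mem_EG.1 a).1.asymm⟩
      · intro w _; rfl
      · rintro ⟨x, y⟩ he
        have := (mem_filter.1 he).2
        simp only at this
        subst this
        rfl
  have h3 := hG v
  rw [h2] at h3
  obtain ⟨k, hk⟩ := h3
  rw [h1]
  omega

/-- the edges underlying `H` -/
def und (H : Finset (Fin n × Fin n)) : Finset (Fin n × Fin n) :=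
  (H ∪ H.image Prod.swap).filter (fun e => e.1 < e.2)

lemma mem_und {H : Finset (Fin n × Fin n)} {u v : Fin n} :
    (u, v) ∈ und H ↔ u < v ∧ ((u, v) ∈ H ∨ (v, u) ∈ H) := by
  simp only [und, mem_filter, mem_union, mem_image]
  constructor
  · rintro ⟨h | ⟨⟨a, b⟩, h, e⟩, h2⟩
    · exact ⟨h2, Or.inl h⟩
    · simp only [Prod.swap_prod_mk, Prod.mk.injEq] at e
      obtain ⟨rfl, rfl⟩ := e
      exact ⟨h2, Or.inr h⟩
  · rintro ⟨h2, h | h⟩
    · exact ⟨Or.inl h, h2⟩
    · exact ⟨Or.inr ⟨(v, u), h, rfl⟩, h2⟩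

lemma arcs_und {G : SimpleGraph (Fin n)} {H : Finset (Fin n × Fin n)} (hH : IsBalancedIn G H) :
    arcs (und H) (H ∩ und H) = H := by
  ext ⟨u, v⟩
  rw [mem_arcs]
  simp only [mem_inter, mem_und]
  constructor
  · rintro (⟨h1, -⟩ | ⟨⟨h1, h2⟩, h3⟩)
    · exact h1
    · by_contra h4
      tauto
  · intro h1
    have huv := hH.1 _ h1
    have := hH.2.1 _ _ h1
    rcases lt_or_gt_of_ne huv.ne with hlt | hlt
    · exact Or.inl ⟨h1, hlt, Or.inl h1⟩
    · exact Or.inr ⟨⟨hlt, Or.inr h1⟩, fun hh => this hh.1⟩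

lemma card_und {G : SimpleGraph (Fin n)} {H : Finset (Fin n × Fin n)} (hH : IsBalancedIn G H) :
    (und H).card = H.card := by
  have h : (und H).card = (arcs (und H) (H ∩ und H)).card := by
    rw [arcs, card_union_of_disjoint, card_image_of_injective _ Prod.swap_injective, add_comm,
      card_sdiff_add_card_eq_card inter_subset_right]
    rw [disjoint_left]
    rintro ⟨u, v⟩ he h
    obtain ⟨⟨a, b⟩, h1, h2⟩ := mem_image.1 h
    simp only [Prod.swap_prod_mk, Prod.mk.injEq] at h2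
    obtain ⟨rfl, rfl⟩ := h2
    exact absurd (mem_und.1 (mem_inter.1 he).2).1 (mem_und.1 (mem_sdiff.1 h1).1).1.asymm
  rw [h, arcs_und hH]

/-- **Correlation.** A balanced oriented subgraph `H` of an even graph `G` lies in at least the
proportion `2 ^ (-e(H))` of all Eulerian orientations of `G`. -/
theorem correlation {G : SimpleGraph (Fin n)} [DecidableRel G.Adj] (hG : ∀ v, Even (G.degree v))
    {H : Finset (Fin n × Fin n)} (hH : IsBalancedIn G H) :
    (EO G).card ≤ 2 ^ H.card * ((EO G).filter (fun A => H ⊆ A)).card := by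
  have hE : ∀ e ∈ EG G, e.1 < e.2 := fun e he => (mem_EG.1 he).1
  have hC : und H ⊆ EG G := by
    rintro ⟨u, v⟩ he
    obtain ⟨h1, h2⟩ := mem_und.1 he
    refine mem_EG.2 ⟨h1, ?_⟩
    rcases h2 with h2 | h2
    · exact hH.1 _ h2
    · exact (hH.1 _ h2).symm
  have hCE : ∀ e ∈ und H, e.1 < e.2 := fun e he => hE e (hC he)
  have hD : D (fun e => bv (id e)) (und H) (H ∩ und H) = 0 := by
    rw [bal_arcs hCE inter_subset_right, arcs_und hH, sum_bv]
    exact hH.2.2
  rw [card_EO, ← card_und hH]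
  refine (N_cut id hC (Ev_sdiff hC (Ev_of_even hG) (Ev_of_D hD))).trans (Nat.mul_le_mul_left _ ?_)
  rw [N, T, sum_boole, Nat.cast_id]
  refine card_le_card_of_injOn (fun F => arcs (EG G) ((H ∩ und H) ∪ F)) ?_ ?_
  · intro F hF'
    obtain ⟨a1, a2⟩ := mem_filter.1 (mem_coe.1 hF')
    have a1 := mem_powerset.1 a1
    have nC : ∀ e ∈ und H, e ∉ F := fun e he h => (mem_sdiff.1 (a1 h)).2 he
    have hsub : (H ∩ und H) ∪ F ⊆ EG G :=
      union_subset (inter_subset_right.trans hC) (a1.trans sdiff_subset)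
    have hD0 : D (fun e => bv (id e)) (EG G) ((H ∩ und H) ∪ F) = 0 := by
      rw [D, ← sum_sdiff hC, ← add_zero (0 : Fin n → ℤ)]
      congr 1
      · rw [← a2]
        refine sum_congr rfl fun e he => ?_
        have : e ∉ H ∩ und H := fun h => (mem_sdiff.1 he).2 (mem_inter.1 h).2
        simp only [mem_union, this, false_or]
      · rw [← hD]
        refine sum_congr rfl fun e he => ?_
        simp only [mem_union, nC e he, or_false]
    refine mem_coe.2 (mem_filter.2 ⟨mem_EO.2 (arcs_EO hsub hD0), ?_⟩)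
    rintro ⟨u, v⟩ he
    rw [mem_arcs]
    rw [← arcs_und hH, mem_arcs] at he
    rcases he with he | ⟨h1, h2⟩
    · exact Or.inl (mem_union_left _ he)
    · exact Or.inr ⟨hC h1, fun h => (mem_union.1 h).elim h2 (nC _ h1)⟩
  · intro F h G' h' e
    have a1 := mem_powerset.1 (mem_filter.1 (mem_coe.1 h)).1
    have a2 := mem_powerset.1 (mem_filter.1 (mem_coe.1 h')).1
    have b1 : ∀ x ∈ F, x ∉ H ∩ und H := fun x h h' => (mem_sdiff.1 (a1 h)).2 (mem_inter.1 h').2
    have b2 : ∀ x ∈ G', x ∉ H ∩ und H := fun x h h' => (mem_sdiff.1 (a2 h)).2 (mem_inter.1 h').2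
    have c : ∀ F' : Finset (Fin n × Fin n), F' ⊆ EG G → ∀ u v, (u, v) ∈ EG G →
        ((u, v) ∈ arcs (EG G) F' ↔ (u, v) ∈ F') := by
      intro F' hF' u v huv
      rw [mem_arcs]
      exact ⟨fun h => h.elim id fun h => absurd (hE _ huv) (hE _ h.1).asymm, Or.inl⟩
    have d1 : (H ∩ und H) ∪ F ⊆ EG G :=
      union_subset (inter_subset_right.trans hC) (a1.trans sdiff_subset)
    have d2 : (H ∩ und H) ∪ G' ⊆ EG G :=
      union_subset (inter_subset_right.trans hC) (a2.trans sdiff_subset)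
    ext ⟨u, v⟩
    by_cases huv : (u, v) ∈ EG G
    · have e' : (u, v) ∈ arcs (EG G) ((H ∩ und H) ∪ F) ↔ (u, v) ∈ arcs (EG G) ((H ∩ und H) ∪ G') := by
        have := congrArg ((u, v) ∈ ·) e
        simpa only [eq_iff_iff] using this
      rw [c _ d1 _ _ huv, c _ d2 _ _ huv, mem_union, mem_union] at e'
      have := b1 (u, v)
      have := b2 (u, v)
      tauto
    · exact ⟨fun h => absurd (sdiff_subset (a1 h)) huv, fun h => absurd (sdiff_subset (a2 h)) huv⟩

lemma EO_nonempty {G : SimpleGraph (Fin n)} [DecidableRel G.Adj] (hG : ∀ v, Even (G.degree v)) :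
    (EO G).Nonempty := by
  rw [← card_pos, card_EO]
  exact N_pos id (Ev_of_even hG)

end Pool.Agent.H3T0
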